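import Pool.Agent.H878Z.TDMain

namespace Pool.Agent.Results.MP_917879_lc.OneRule

open Pool.Agent.H878Z.TD

/-- Fixed Borel data turn every game `G(A)` into a game whose payoff is a Turing invariant set
intersected with one fixed Borel Turing invariant rule on the moves of player I; a winner of the
new game wins `G(A)`. -/
theorem result : ∃ (G B D : Set (ℕ → Bool)) (φ : (ℕ → Bool) → (ℕ → Bool)),
    MeasurableSet G ∧ MeasurableSet B ∧ MeasurableSet D ∧ Measurable φ ∧ TuringInvariant G ∧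
    ∀ A : Set (ℕ → Bool), TuringInvariant (B ∪ (D ∩ φ ⁻¹' A)) ∧
      (WinsI ((B ∪ (D ∩ φ ⁻¹' A)) ∩ {x | (fun n => x (2 * n)) ∈ G}) → WinsI A) ∧
      (WinsII ((B ∪ (D ∩ φ ⁻¹' A)) ∩ {x | (fun n => x (2 * n)) ∈ G}) → WinsII A) :=
  Pool.Agent.H878Z.TD.main

end Pool.Agent.Results.MP_917879_lc.OneRule
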